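import Pool.Agent.CGS.VMain

/-!
# Groups with isomorphic complex group algebras: odd by three times a power of two

Let `ℂG ≅ ℂH`, let `G` have a normal subgroup of odd order and of index `3 * 2 ^ b`, and let `K` be
a normal subgroup of `G` of 2-power index whose order is not divisible by `2 ^ (n + 1)`.
If `n ≤ 4`, or `n = 5` and `7 ∤ |G|`, or (`9 ∤ |G|` or `3 ∤ |G'|`) and no prime `p ≥ 5` dividing
`|G'|` divides one of the numbers `2 ^ i - 1`, `1 ≤ i ≤ n - 2`, then some derived subgroup of `H`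
has odd order.
-/

set_option autoImplicit false

namespace Pool.Agent.Results.MP_0fa5bb_al.OddByThree

theorem result :
    ∀ (G H : Type) [Group G] [Group H] [Finite G] [Finite H],
      Nonempty (MonoidAlgebra ℂ G ≃ₐ[ℂ] MonoidAlgebra ℂ H) →
      (∃ S : Subgroup G, S.Normal ∧ Odd (Nat.card S) ∧ ∃ b : ℕ, S.index = 3 * 2 ^ b) →
      ∀ (K : Subgroup G) (n : ℕ), K.Normal → (∃ a : ℕ, K.index = 2 ^ a) →
      ¬ 2 ^ (n + 1) ∣ Nat.card K →
      (n ≤ 4 ∨ (n = 5 ∧ ¬ 7 ∣ Nat.card G) ∨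
        ((¬ 9 ∣ Nat.card G ∨ ¬ 3 ∣ Nat.card (commutator G)) ∧
        ∀ p i : ℕ, p.Prime → 5 ≤ p → p ∣ Nat.card (commutator G) → 1 ≤ i → i + 2 ≤ n →
          ¬ p ∣ 2 ^ i - 1)) →
      ∃ m : ℕ, Odd (Nat.card (derivedSeries H m)) := by
  intro G H _ _ _ _ e hG K n hK hidx hn hgood
  obtain ⟨a, ha⟩ := hidx
  haveI := hK
  refine Pool.Agent.CGS.main_five e K ha hn hG ?_
  rcases hgood with h | h | h
  · exact Or.inl h
  · exact Or.inr (Or.inl h)
  · exact Or.inr (Or.inr (Or.inr h))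

end Pool.Agent.Results.MP_0fa5bb_al.OddByThree
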