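import Pool.Agent.CGSR.Once
import Pool.Agent.CGSR.AlmostQ

/-!
# Groups with isomorphic complex group algebras: a prime dividing the order exactly once

Let `ℂG ≅ ℂH`, let `G` be soluble and let `q` be an odd prime that divides `|G|` exactly once.
Consider the condition

(a) no odd prime divisor of `|G|` divides `q - 1`, or `G` has a normal subgroup of index `2 ^ i * q`
for some `i` (for `q = 3` and `q = 5` the first alternative always holds).

1. Suppose (a) and moreover

(b) `3 ∤ |G|`, or `q = 3`;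

(c) `4 ∤ |G : G'|`, or `q u ≢ v (mod 16)` for all odd divisors `u`, `v` of `|G|` that are prime to
`q`.

Then `H` has a normal subgroup of index `2 ^ i * q` (for some `i`) whose order is not divisible by
`q`.

2. Let `M` be a normal subgroup of `H` of 2-power index and `N` a normal subgroup of `M` of order
prime to `q` such that `T = M / N` has no subgroup of index two and has a normal subgroup `K` which
is simple and nonabelian, has index prime to `q` and has no subgroup of index `q`.  Let `ℂT` be isomorphic to the product of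
the matrix algebras of the sizes `δ i` and let `n_d` be the number of `i` with `δ i = d`.  If `q`
divides no number `2 ^ j - 1` with an odd divisor `j` of `|G|`, then `n_q ≢ n_1 (mod 4)`.  If (a)
holds or some element of order `q` of `G` is conjugate to its inverse, then `n_q ≡ 0` or
`n_q ≡ - n_1 (mod 4)`.
-/

set_option autoImplicit false

namespace Pool.Agent.Results.MP_0fa5bb_al.PrimeOnce

theorem result :
    ∀ (G H : Type) [Group G] [Group H] [Finite G] [Finite H],
      Nonempty (MonoidAlgebra ℂ G ≃ₐ[ℂ] MonoidAlgebra ℂ H) → Group.IsSolvable G →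
      ∀ q : ℕ, q.Prime → q ≠ 2 → q ∣ Nat.card G → ¬ q ^ 2 ∣ Nat.card G →
      (((∀ p : ℕ, p.Prime → p ∣ Nat.card G → p ∣ q - 1 → p = 2) ∨
          ∃ M : Subgroup G, M.Normal ∧ ∃ i : ℕ, M.index = 2 ^ i * q) →
        (¬ 3 ∣ Nat.card G ∨ q = 3) →
        (¬ 4 ∣ (commutator G).index ∨
          ∀ u v : ℕ, u ∣ Nat.card G → v ∣ Nat.card G → Odd u → Odd v → ¬ q ∣ u → ¬ q ∣ v →
            ¬ q * u ≡ v [MOD 16]) →
        ∃ L : Subgroup H, L.Normal ∧ (∃ i : ℕ, L.index = 2 ^ i * q) ∧ ¬ q ∣ Nat.card L) ∧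
      (∀ (M : Subgroup H) [M.Normal] (N : Subgroup M) [N.Normal] (K : Subgroup (M ⧸ N))
          [K.Normal],
        (∃ i : ℕ, M.index = 2 ^ i) → ¬ q ∣ Nat.card N → IsSimpleGroup K →
        (∃ x y : K, x * y ≠ y * x) → (∀ J : Subgroup (M ⧸ N), J.index ≠ 2) → ¬ q ∣ K.index →
        (∀ J : Subgroup K, J.index ≠ q) →
        ∀ (n : ℕ) (δ : Fin n → ℕ), (∀ i, 0 < δ i) →
          Nonempty (MonoidAlgebra ℂ (M ⧸ N) ≃ₐ[ℂ] (∀ i, Matrix (Fin (δ i)) (Fin (δ i)) ℂ)) →
          ((∀ j : ℕ, Odd j → j ∣ Nat.card G → ¬ q ∣ 2 ^ j - 1) →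
            Nat.card {i // δ i = q} % 4 ≠ Nat.card {i // δ i = 1} % 4) ∧
          ((((∀ p : ℕ, p.Prime → p ∣ Nat.card G → p ∣ q - 1 → p = 2) ∨
              ∃ M : Subgroup G, M.Normal ∧ ∃ i : ℕ, M.index = 2 ^ i * q) ∨
            ∃ g x : G, orderOf x = q ∧ g * x * g⁻¹ = x⁻¹) →
            Nat.card {i // δ i = q} % 4 = 0 ∨
              (Nat.card {i // δ i = q} + Nat.card {i // δ i = 1}) % 4 = 0)) := by
  intro G H _ _ _ _ e hs q hq h2 hqG hqq
  refine ⟨fun hQ hcase hmod => Pool.Agent.CGSR.main_once e hs hq h2 hqG hqq hQ hcase hmod, ?_⟩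
  intro M _ N _ K _ hi hN hK hnc hT2 hKq hno n δ hδ h
  obtain ⟨i, hi⟩ := hi
  refine ⟨fun h3 => ?_, fun hQ => ?_⟩
  · have h1 := Pool.Agent.CGSR.N_almost_ne e hs hq h2 hqG hqq h3 M hi N hN K hnc hT2 hKq hno
    rwa [Pool.Agent.CGSR.N_eq_card δ hδ h q, Pool.Agent.CGSR.N_eq_card δ hδ h 1] at h1
  · have h1 := Pool.Agent.CGSR.N_almost e hs hq h2 hqG hqq hQ M hi N hN K hnc hT2 hKq hno
    rwa [Pool.Agent.CGSR.N_eq_card δ hδ h q, Pool.Agent.CGSR.N_eq_card δ hδ h 1] at h1

end Pool.Agent.Results.MP_0fa5bb_al.PrimeOnce
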