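import Pool.Agent.CGS.Main

/-!
# Groups with isomorphic complex group algebras: a small 2-residual

Let `ℂG ≅ ℂH`, let some derived subgroup of `G` have odd order (for instance `G` soluble) and let
`K` be a normal subgroup of `G` of 2-power index whose order is not divisible by `2 ^ (n + 1)`.
If `n ≤ 2`, or `n = 3` and `7 ∤ |G|`, or `9 ∤ |G|` and no prime `p ≥ 5` dividing `|G|` divides one
of the numbers `2 ^ i - 1`, `1 ≤ i ≤ n`, then some derived subgroup of `H` has odd order.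
-/

set_option autoImplicit false

namespace Pool.Agent.Results.MP_0fa5bb_al.SmallResidual

theorem result :
    ∀ (G H : Type) [Group G] [Group H] [Finite G] [Finite H],
      Nonempty (MonoidAlgebra ℂ G ≃ₐ[ℂ] MonoidAlgebra ℂ H) →
      (∃ m : ℕ, Odd (Nat.card (derivedSeries G m))) →
      ∀ (K : Subgroup G) (n : ℕ), K.Normal → (∃ a : ℕ, K.index = 2 ^ a) →
      ¬ 2 ^ (n + 1) ∣ Nat.card K →
      (n ≤ 2 ∨ (n = 3 ∧ ¬ 7 ∣ Nat.card G) ∨
        (¬ 9 ∣ Nat.card G ∧ ∀ p i : ℕ, p.Prime → 5 ≤ p → p ∣ Nat.card G → 1 ≤ i → i ≤ n →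
          ¬ p ∣ 2 ^ i - 1)) →
      ∃ m : ℕ, Odd (Nat.card (derivedSeries H m)) := by
  intro G H _ _ _ _ e hG K n hK hidx hn hgood
  obtain ⟨a, ha⟩ := hidx
  haveI := hK
  exact Pool.Agent.CGS.main_theorem e K ha hn (Or.inl ⟨hG, hgood⟩)

end Pool.Agent.Results.MP_0fa5bb_al.SmallResidual
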